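import Pool.Agent.Y329.CG.Stm

/-!
# Project CG: no free subgroups (the argument of Brin and Squier)
-/

set_option autoImplicit false

open Set Filter Topology MeasureTheory

namespace Pool.Agent.Y547.CG

open Pool.Agent.Y329.CG

theorem api (g : Equiv.Perm ℝ) (y : ℝ) : g (g⁻¹ y) = y := g.apply_symm_apply y

section
variable (φ : F2 →* Equiv.Perm ℝ)

/-- common fixed points -/
def Fx : Set ℝ := {x | ∀ w, φ w x = x}

/-- the support -/
def supp (w : F2) : Set ℝ := {y | φ w y ≠ y}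

/-- the ends of a complementary interval -/
def IsC (c : ℝ × ℝ) : Prop := c.1 ∈ Fx φ ∧ c.2 ∈ Fx φ ∧ ∀ x ∈ Ioo c.1 c.2, x ∉ Fx φ

variable {φ}

theorem cont (hm : ∀ w, StrictMono (φ w)) (w : F2) : Continuous (φ w) :=
  (hm w).monotone.continuous_of_surjective (φ w).surjective

theorem isClosed_Fx (hm : ∀ w, StrictMono (φ w)) : IsClosed (Fx φ) := by
  have : Fx φ = ⋂ w, {x | φ w x = x} := by
    ext x
    simp [Fx]
  rw [this]
  exact isClosed_iInter fun w => isClosed_eq (cont hm w) continuous_id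

theorem inv_fix {w : F2} {y : ℝ} (h : φ w y = y) : φ w⁻¹ y = y := by
  rw [map_inv, Equiv.Perm.inv_eq_iff_eq]
  exact h.symm

/-- elements which are trivial near `x` -/
def Nx (φ : F2 →* Equiv.Perm ℝ) (x : ℝ) : Subgroup F2 where
  carrier := {w | ∀ᶠ y in 𝓝 x, φ w y = y}
  mul_mem' := by
    intro a b ha hb
    filter_upwards [ha, hb] with y h1 h2
    rw [map_mul, Equiv.Perm.mul_apply, h2, h1]
  one_mem' := by
    refine Eventually.of_forall fun y => ?_
    rw [map_one]
    rfl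
  inv_mem' := by
    intro a ha
    filter_upwards [ha] with y h1
    exact inv_fix h1

theorem com_near (hc : ∀ w w' x, φ w x = x → φ w' x = x →
    ∀ᶠ y in 𝓝 x, φ (w * w' * w⁻¹ * w'⁻¹) y = y) {w : F2} (hw : w ∈ commutator F2) {x : ℝ}
    (hx : x ∈ Fx φ) : ∀ᶠ y in 𝓝 x, φ w y = y := by
  have h : commutator F2 ≤ Nx φ x := by
    rw [commutator_eq_closure, Subgroup.closure_le]
    rintro g ⟨a, b, rfl⟩
    exact hc a b x (hx a) (hx b)
  exact h hw

theorem inv_Ioo (hm : ∀ w, StrictMono (φ w)) {c : ℝ × ℝ} (hc : IsC φ c) (w : F2) {y : ℝ}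
    (hy : y ∈ Ioo c.1 c.2) : φ w y ∈ Ioo c.1 c.2 := by
  constructor
  · have := hm w hy.1
    rwa [hc.1 w] at this
  · have := hm w hy.2
    rwa [hc.2.1 w] at this

theorem closure_supp (hc : ∀ w w' x, φ w x = x → φ w' x = x →
    ∀ᶠ y in 𝓝 x, φ (w * w' * w⁻¹ * w'⁻¹) y = y) {w : F2} (hw : w ∈ commutator F2) {x : ℝ}
    (hx : x ∈ closure (supp φ w)) : x ∉ Fx φ := by
  intro h
  have h1 := com_near hc hw h
  have h2 := mem_closure_iff_frequently.1 hx
  obtain ⟨y, hy1, hy2⟩ := (h2.and_eventually h1).exists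
  exact hy1 hy2

theorem step (hFG : S_FG) (hMV : S_MV) (hm : ∀ w, StrictMono (φ w))
    (hc : ∀ w w' x, φ w x = x → φ w' x = x → ∀ᶠ y in 𝓝 x, φ (w * w' * w⁻¹ * w'⁻¹) y = y)
    (hinj : Function.Injective φ) (P : Finset (ℝ × ℝ)) : (∀ c ∈ P, IsC φ c) →
    ∀ w ∈ commutator F2, supp φ w ⊆ ⋃ c ∈ P, Ioo c.1 c.2 → w = 1 := by
  classical
  induction P using Finset.induction_on with
  | empty =>
    intro _ w _ h
    apply hinj
    rw [map_one]
    ext y
    by_contra hy
    have := h (show y ∈ supp φ w from hy)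
    simp at this
  | insert c P hcP ih =>
    intro hP w hw h
    have hcc : IsC φ c := hP c (Finset.mem_insert_self _ _)
    have hP' : ∀ c ∈ P, IsC φ c := fun c' h' => hP c' (Finset.mem_insert_of_mem h')
    by_contra hne
    let K : Set ℝ := closure (supp φ w) ∩ Icc c.1 c.2
    have hK : IsCompact K := isCompact_Icc.inter_left isClosed_closure
    have hKs : K ⊆ Ioo c.1 c.2 := by
      rintro x ⟨h1, h2⟩
      have h3 := closure_supp hc hw h1
      refine ⟨lt_of_le_of_ne h2.1 ?_, lt_of_le_of_ne h2.2 ?_⟩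
      · intro h4
        exact h3 (h4 ▸ hcc.1)
      · intro h4
        exact h3 (h4 ▸ hcc.2.1)
    obtain ⟨u, ⟨v, rfl⟩, hd⟩ := hMV φ.range (by
        rintro g ⟨v, rfl⟩
        exact hm v) c.1 c.2 (by
        rintro g ⟨v, rfl⟩
        exact hcc.1 v) (by
        rintro g ⟨v, rfl⟩
        exact hcc.2.1 v) (by
        intro x hx
        by_contra hcon
        push Not at hcon
        exact hcc.2.2 x hx fun w => hcon _ ⟨w, rfl⟩) K hK hKs
    set w' : F2 := v * w * v⁻¹ with hw'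
    have hmem' : w' ∈ commutator F2 := Subgroup.Normal.conj_mem inferInstance w hw v
    -- the support of `w'`
    have hs' : ∀ y, y ∈ supp φ w' → φ v⁻¹ y ∈ supp φ w := by
      intro y hy h1
      apply hy
      rw [hw', map_mul, map_mul, Equiv.Perm.mul_apply, Equiv.Perm.mul_apply, h1, map_inv,
        api]
    have hy1 : ∀ y ∈ Ioo c.1 c.2, y ∈ supp φ w → y ∈ K := fun y h1 h2 =>
      ⟨subset_closure h2, h1.1.le, h1.2.le⟩
    have hy2 : ∀ y ∈ Ioo c.1 c.2, y ∈ supp φ w' → y ∈ φ v '' K := fun y h1 h2 =>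
      ⟨φ v⁻¹ y, hy1 _ (inv_Ioo hm hcc _ h1) (hs' y h2), by
        rw [map_inv, api]⟩
    have hdj : ∀ y ∈ Ioo c.1 c.2, y ∈ supp φ w → y ∉ supp φ w' := fun y h1 h2 h3 =>
      Set.disjoint_left.1 hd (hy2 y h1 h3) (hy1 y h1 h2)
    have hself : ∀ (a : F2) (y : ℝ), y ∈ supp φ a → φ a y ∈ supp φ a := fun a y h1 h2 =>
      h1 ((φ a).injective h2)
    have hcomm : ∀ y ∈ Ioo c.1 c.2, φ w (φ w' y) = φ w' (φ w y) := by
      intro y hy
      by_cases h1 : y ∈ supp φ w
      · have e1 : φ w' y = y := not_not.1 (hdj y hy h1)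
        have e2 : φ w' (φ w y) = φ w y :=
          not_not.1 (hdj _ (inv_Ioo hm hcc w hy) (hself w y h1))
        rw [e1, e2]
      · have e0 : φ w y = y := not_not.1 h1
        rw [e0]
        by_cases h2 : y ∈ supp φ w'
        · have h3 := hself w' y h2
          have h4 : φ w' y ∉ supp φ w := fun h5 => hdj _ (inv_Ioo hm hcc w' hy) h5 h3
          exact not_not.1 h4
        · have e1 : φ w' y = y := not_not.1 h2
          rw [e1, e0]
    have hx : w * w' * w⁻¹ * w'⁻¹ = 1 := by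
      refine ih hP' _ ?_ ?_
      · exact mul_mem (mul_mem (mul_mem hw hmem') (inv_mem hw)) (inv_mem hmem')
      · intro y hy
        have h1 : y ∈ supp φ w ∨ y ∈ supp φ w' := by
          by_contra hcon
          push Not at hcon
          obtain ⟨h1, h2⟩ := hcon
          have e1 : φ w y = y := not_not.1 h1
          have e2 : φ w' y = y := not_not.1 h2
          apply hy
          rw [map_mul, map_mul, map_mul, Equiv.Perm.mul_apply, Equiv.Perm.mul_apply,
            Equiv.Perm.mul_apply, inv_fix e2, inv_fix e1, e2, e1]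
        have h2 : y ∈ ⋃ c' ∈ insert c P, Ioo c'.1 c'.2 := by
          rcases h1 with h1 | h1
          · exact h h1
          · have h3 := h (hs' y h1)
            simp only [mem_iUnion, exists_prop] at h3 ⊢
            obtain ⟨c', hc', h4⟩ := h3
            refine ⟨c', hc', ?_⟩
            have h5 := inv_Ioo hm (hP c' hc') v h4
            rwa [map_inv, api] at h5
        simp only [mem_iUnion, exists_prop, Finset.mem_insert] at h2 ⊢
        obtain ⟨c', hc' | hc', h4⟩ := h2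
        · subst hc'
          exfalso
          apply hy
          have h5 := hcomm (φ (w⁻¹ * w'⁻¹) y) (inv_Ioo hm hcc _ h4)
          have e1 : φ (w * w' * w⁻¹ * w'⁻¹) y = φ w (φ w' (φ (w⁻¹ * w'⁻¹) y)) := by
            simp only [map_mul, Equiv.Perm.mul_apply]
          rw [e1, h5]
          simp only [map_mul, map_inv, Equiv.Perm.mul_apply, api]
        · exact ⟨c', hc', h4⟩
    have hww : w * w' = w' * w := by
      have h1 : w * w' * (w' * w)⁻¹ = 1 := by
        rw [mul_inv_rev, ← mul_assoc]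
        exact hx
      exact mul_inv_eq_one.1 h1
    have heq : w' = w := hFG w v hne hww
    refine hne (ih hP' w hw ?_)
    intro y hy
    have h2 := h hy
    simp only [mem_iUnion, exists_prop, Finset.mem_insert] at h2 ⊢
    obtain ⟨c', hc' | hc', h4⟩ := h2
    · subst hc'
      exact absurd (heq ▸ hy) (hdj y h4 hy)
    · exact ⟨c', hc', h4⟩

end

theorem com_ne : FreeGroup.of (0 : Fin 2) * FreeGroup.of 1 * (FreeGroup.of 0)⁻¹ *
    (FreeGroup.of 1)⁻¹ ≠ 1 := by
  intro h
  have h1 := congrArg (FreeGroup.lift (fun i : Fin 2 => if i = 0 then Equiv.swap (0 : Fin 3) 1 else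
    Equiv.swap (1 : Fin 3) 2)) h
  simp only [map_mul, map_inv, FreeGroup.lift_apply_of, map_one, if_true] at h1
  revert h1
  decide

/-- No free subgroup criterion. -/
theorem done (hFG : S_FG) (hMV : S_MV) : S_NF := by
  rintro G hm ho hc ⟨f, hf⟩
  let φ : F2 →* Equiv.Perm ℝ := G.subtype.comp f
  have hinj : Function.Injective φ := (Subtype.val_injective).comp hf
  have hm' : ∀ w, StrictMono (φ w) := fun w => hm _ (f w).2
  have ho' : ∀ w x, x ∉ Ioo (0 : ℝ) 3 → φ w x = x := fun w x hx => ho _ (f w).2 x hx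
  have hc' : ∀ w w' x, φ w x = x → φ w' x = x →
      ∀ᶠ y in 𝓝 x, φ (w * w' * w⁻¹ * w'⁻¹) y = y := by
    intro w w' x h1 h2
    filter_upwards [hc _ (f w).2 _ (f w').2 x h1 h2] with y hy
    simp only [map_mul, map_inv]
    exact hy
  have hcomp : ∀ z, z ∉ Fx φ → ∃ c : ℝ × ℝ, IsC φ c ∧ z ∈ Ioo c.1 c.2 := by
    intro z hz
    have hz3 : z ∈ Ioo (0 : ℝ) 3 := by
      by_contra hcon
      exact hz fun w => ho' w z hcon
    have hcl := isClosed_Fx hm'
    have h0 : (0 : ℝ) ∈ Fx φ ∩ Iic z := ⟨fun w => ho' w 0 (by simp), hz3.1.le⟩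
    have h3 : (3 : ℝ) ∈ Fx φ ∩ Ici z := ⟨fun w => ho' w 3 (by simp), hz3.2.le⟩
    have hl := (hcl.inter isClosed_Iic).csSup_mem ⟨0, h0⟩ ⟨z, fun x hx => hx.2⟩
    have hr := (hcl.inter isClosed_Ici).csInf_mem ⟨3, h3⟩ ⟨z, fun x hx => hx.2⟩
    refine ⟨(sSup (Fx φ ∩ Iic z), sInf (Fx φ ∩ Ici z)), ⟨hl.1, hr.1, ?_⟩, ?_, ?_⟩
    · rintro x ⟨h1, h2⟩ hx
      rcases le_total x z with h4 | h4
      · have : x ≤ sSup (Fx φ ∩ Iic z) := le_csSup ⟨z, fun x hx => hx.2⟩ ⟨hx, h4⟩
        exact absurd h1 (not_lt.2 this)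
      · have : sInf (Fx φ ∩ Ici z) ≤ x := csInf_le ⟨z, fun x hx => hx.2⟩ ⟨hx, h4⟩
        exact absurd h2 (not_lt.2 this)
    · refine lt_of_le_of_ne hl.2 ?_
      intro h4
      exact hz (h4 ▸ hl.1)
    · refine lt_of_le_of_ne hr.2 ?_
      intro h4
      exact hz (h4.symm ▸ hr.1)
  choose! c hcc hzc using hcomp
  set w : F2 := FreeGroup.of (0 : Fin 2) * FreeGroup.of 1 * (FreeGroup.of 0)⁻¹ *
    (FreeGroup.of 1)⁻¹ with hw
  have hwc : w ∈ commutator F2 :=
    Subgroup.commutator_mem_commutator (Subgroup.mem_top (FreeGroup.of (0 : Fin 2)))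
      (Subgroup.mem_top (FreeGroup.of (1 : Fin 2)))
  have hsub : supp φ w ⊆ Icc 0 3 := by
    intro y hy
    by_contra hcon
    exact hy (ho' w y fun h => hcon ⟨h.1.le, h.2.le⟩)
  have hcpt : IsCompact (closure (supp φ w)) :=
    isCompact_Icc.of_isClosed_subset isClosed_closure (closure_minimal hsub isClosed_Icc)
  obtain ⟨t, ht1, ht2⟩ := hcpt.elim_nhds_subcover (fun z => Ioo (c z).1 (c z).2) fun z hz =>
    isOpen_Ioo.mem_nhds (hzc z (closure_supp hc' hwc hz))
  refine com_ne (step hFG hMV hm' hc' hinj (t.image c) ?_ w hwc ?_)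
  · intro c' hc'
    obtain ⟨z, hz, rfl⟩ := Finset.mem_image.1 hc'
    exact hcc z (closure_supp (by assumption) hwc (ht1 z hz))
  · intro y hy
    have h1 := ht2 (subset_closure hy)
    simp only [mem_iUnion, exists_prop] at h1 ⊢
    obtain ⟨z, hz, h2⟩ := h1
    exact ⟨c z, Finset.mem_image_of_mem _ hz, h2⟩

end Pool.Agent.Y547.CG
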